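import Pool.Agent.Helper70_RES.Stmts
import Pool.Agent.Helper54_QE.Meas

/-!
# Module ATM: eigenvalues through the imaginary part of the energy times the Green function
-/

set_option autoImplicit false
set_option linter.unusedSectionVars false

open scoped InnerProductSpace ComplexConjugate Topology ENNReal
open MeasureTheory Filter

noncomputable section

namespace Pool.Agent.Helper56.RES

open Pool.Agent.Anderson Pool.Agent.Helper54.Bal Pool.Agent.QE Pool.Agent.RES

variable {d : ℕ}

theorem en_pos (n : ℕ) : 0 < en n := by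
  unfold en
  positivity

theorem en_lim : Tendsto en atTop (𝓝 0) := tendsto_one_div_add_atTop_nhds_zero_nat

theorem zz_ne (n : ℕ) (E : ℝ) : (zz (en n) E).im ≠ 0 := by
  rw [zz_im]
  exact (en_pos n).ne'

theorem atm_lower {V : Cfg d} {E : ℝ} {x : Site d} {ψ : L2 d} (hψ : Eig V E ψ) (n : ℕ) :
    ‖ψ x‖ ≤ ‖ψ‖ * (en n * ‖GG V E n x‖) := by
  have hz := zz_ne n E
  have hz' := conj_im_ne hz
  have h1 : ψ = G V (conj (zz (en n) E)) ((Complex.I * (en n : ℂ)) • ψ) := by
    apply G_unique hz'
    intro y
    have h := hψ y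
    have e : conj (zz (en n) E) = (E : ℂ) - Complex.I * (en n : ℂ) := by
      unfold zz
      rw [map_add, map_mul, Complex.conj_ofReal, Complex.conj_ofReal, Complex.conj_I]
      ring
    rw [e, lp.coeFn_smul, Pi.smul_apply, smul_eq_mul]
    linear_combination h
  have h2 : ⟪GG V E n x, (Complex.I * (en n : ℂ)) • ψ⟫_ℂ = ψ x := by
    unfold GG
    rw [(isRes_G V).adj _ hz, ← h1, inner_del_left]
  have h3 : ‖ψ x‖ ≤ ‖GG V E n x‖ * ‖(Complex.I * (en n : ℂ)) • ψ‖ := by
    rw [← h2]
    exact norm_inner_le_norm _ _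
  rw [norm_smul, norm_mul, Complex.norm_I, one_mul, Complex.norm_real, Real.norm_eq_abs,
    abs_of_pos (en_pos n)] at h3
  linarith

theorem lap_lim {u : ℕ → L2 d} {φ : L2 d} (h : ∀ x, Tendsto (fun n => u n x) atTop (𝓝 (φ x)))
    (y : Site d) : Tendsto (fun n => lap (u n) y) atTop (𝓝 (lap φ y)) := by
  unfold lap
  exact tendsto_finsetSum _ fun i _ => (h _).add (h _)

theorem atm_stmt (hcpt : CptStmt) : AtmStmt := by
  intro d V E x
  constructor
  · rintro ⟨ψ, hψ, hx⟩ hlim
    have h1 := hlim.const_mul ‖ψ‖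
    rw [mul_zero] at h1
    have h2 : ‖ψ x‖ ≤ 0 := ge_of_tendsto h1 (Eventually.of_forall fun n => atm_lower hψ n)
    exact hx (norm_le_zero_iff.mp h2)
  · intro hlim
    rw [Metric.tendsto_atTop] at hlim
    push Not at hlim
    obtain ⟨ε, hε, hfr⟩ := hlim
    have hfr' : ∃ᶠ n in atTop, ε ≤ dist (en n * ‖GG V E n x‖) 0 := by
      rw [frequently_atTop]
      intro N
      obtain ⟨n, hn, h⟩ := hfr N
      exact ⟨n, hn, h⟩
    obtain ⟨s, hs, hsε⟩ := extraction_of_frequently_atTop hfr'
    have hsε' : ∀ n, ε ≤ en (s n) * ‖GG V E (s n) x‖ := by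
      intro n
      have h := hsε n
      rw [Real.dist_eq, sub_zero, abs_of_nonneg (mul_nonneg (en_pos _).le (norm_nonneg _))] at h
      exact h
    set u : ℕ → L2 d := fun n => ((en (s n) : ℝ) : ℂ) • GG V E (s n) x with hu
    have hun : ∀ n, ‖u n‖ ≤ 1 := by
      intro n
      rw [hu]
      simp only
      rw [norm_smul, Complex.norm_real, Real.norm_eq_abs, abs_of_pos (en_pos _)]
      have h1 := (isRes_G V).norm_le' (zz_ne (s n) E) (del x)
      rw [zz_im, abs_of_pos (en_pos _), norm_del, mul_one] at h1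
      calc en (s n) * ‖GG V E (s n) x‖ ≤ en (s n) * (en (s n))⁻¹ :=
            mul_le_mul_of_nonneg_left h1 (en_pos _).le
        _ = 1 := mul_inv_cancel₀ (en_pos _).ne'
    obtain ⟨φ, t, ht, hφ, hlim⟩ := hcpt d u 1 hun
    have hst : Tendsto (fun n => s (t n)) atTop atTop := (hs.comp ht).tendsto_atTop
    have hen : Tendsto (fun n => ((en (s (t n)) : ℝ) : ℂ)) atTop (𝓝 0) := by
      have h1 := (Complex.continuous_ofReal.tendsto 0).comp (en_lim.comp hst)
      rw [Complex.ofReal_zero] at h1
      exact h1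
    refine ⟨φ, ?_, ?_⟩
    · intro y
      have h1 : Tendsto (fun n => lap (u (t n)) y + ((V y : ℂ) - E) * u (t n) y) atTop
          (𝓝 (lap φ y + ((V y : ℂ) - E) * φ y)) :=
        (lap_lim hlim y).add ((hlim y).const_mul _)
      have h2 : ∀ n, lap (u (t n)) y + ((V y : ℂ) - E) * u (t n) y =
          ((en (s (t n)) : ℝ) : ℂ) * del x y +
            Complex.I * (((en (s (t n)) : ℝ) : ℂ) * u (t n) y) := by
        intro n
        have h3 := G_eq (V := V) (zz_ne (s (t n)) E) (del x) y
        have h4 : lap (u (t n)) y = ((en (s (t n)) : ℝ) : ℂ) * lap (GG V E (s (t n)) x) y := by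
          rw [← Lap_apply, ← Lap_apply, hu]
          simp only
          rw [map_smul, lp.coeFn_smul, Pi.smul_apply, smul_eq_mul]
        have h5 : u (t n) y = ((en (s (t n)) : ℝ) : ℂ) * GG V E (s (t n)) x y := by
          rw [hu]
          simp only
          rw [lp.coeFn_smul, Pi.smul_apply, smul_eq_mul]
        rw [h4, h5]
        unfold GG
        unfold zz at h3 ⊢
        linear_combination ((en (s (t n)) : ℝ) : ℂ) * h3
      have h6 : Tendsto (fun n => ((en (s (t n)) : ℝ) : ℂ) * del x y +
            Complex.I * (((en (s (t n)) : ℝ) : ℂ) * u (t n) y)) atTop (𝓝 0) := by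
        have h7 := (hen.mul_const (del x y)).add ((hen.mul (hlim y)).const_mul Complex.I)
        simpa using h7
      have h8 : Tendsto (fun n => lap (u (t n)) y + ((V y : ℂ) - E) * u (t n) y) atTop (𝓝 0) := by
        simp only [h2]
        exact h6
      exact tendsto_nhds_unique h1 h8
    · have h1 : Tendsto (fun n => (u (t n) x).im) atTop (𝓝 (φ x).im) :=
        (Complex.continuous_im.tendsto _).comp (hlim x)
      have h2 : ∀ n, ε ^ 2 ≤ (u (t n) x).im := by
        intro n
        have h5 : u (t n) x = ((en (s (t n)) : ℝ) : ℂ) * GG V E (s (t n)) x x := by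
          rw [hu]
          simp only
          rw [lp.coeFn_smul, Pi.smul_apply, smul_eq_mul]
        rw [h5, Complex.im_ofReal_mul]
        unfold GG
        rw [im_G_del' (zz_ne _ _), zz_im]
        have h6 := hsε' (t n)
        unfold GG at h6
        nlinarith [h6, hε, en_pos (s (t n))]
      have h3 : ε ^ 2 ≤ (φ x).im := ge_of_tendsto h1 (Eventually.of_forall h2)
      intro h0
      rw [h0, Complex.zero_im] at h3
      nlinarith

end Pool.Agent.Helper56.RES
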