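import Pool.Agent.Helper70_RES.Stmts
import Pool.Agent.Helper55_QE.Box

/-!
# Module MAX: the maximal ergodic inequality for actions of `ℤ^d`
-/

set_option autoImplicit false
set_option linter.unusedSectionVars false

open scoped InnerProductSpace ComplexConjugate Topology ENNReal
open MeasureTheory Filter

noncomputable section

namespace Pool.Agent.Helper56.RES

open Pool.Agent.Anderson Pool.Agent.Helper54.Bal Pool.Agent.QE Pool.Agent.RES
open Pool.Agent.Helper55_QE

variable {d : ℕ} {X : Type} [MeasurableSpace X]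

/-- the number of sites in the box whose translate is in `S` -/
def cnt (T : Site d → X → X) (S : Set X) (R : ℕ) (p : X) : ℕ :=
  ({x | T x p ∈ S} ∩ (bx d R : Set (Site d))).ncard

theorem cnt_eq (T : Site d → X → X) (S : Set X) (R : ℕ) (p : X) :
    (cnt T S R p : ℝ≥0∞) = ∑ x ∈ bx d R, Set.indicator (T x ⁻¹' S) (fun _ => (1 : ℝ≥0∞)) p := by
  classical
  have h1 : ({x | T x p ∈ S} ∩ (bx d R : Set (Site d))) =
      (((bx d R).filter fun x => T x p ∈ S : Finset (Site d)) : Set (Site d)) := by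
    ext x
    simp only [Set.mem_inter_iff, Set.mem_ofPred_eq, Finset.mem_coe, Finset.mem_filter]
    tauto
  unfold cnt
  rw [h1, Set.ncard_coe_finset, Finset.card_filter]
  push_cast
  refine Finset.sum_congr rfl fun x _ => ?_
  by_cases hx : T x p ∈ S
  · rw [if_pos hx, Set.indicator_of_mem (Set.mem_preimage.mpr hx)]
  · rw [if_neg hx, Set.indicator_of_notMem (fun h => hx (Set.mem_preimage.mp h))]

theorem meas_cnt (T : Site d → X → X) (hT : ∀ a, Measurable (T a)) (S : Set X)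
    (hS : MeasurableSet S) (R : ℕ) : Measurable fun p => (cnt T S R p : ℝ≥0∞) := by
  have : (fun p => (cnt T S R p : ℝ≥0∞)) =
      fun p => ∑ x ∈ bx d R, Set.indicator (T x ⁻¹' S) (fun _ => (1 : ℝ≥0∞)) p := by
    funext p
    exact cnt_eq T S R p
  rw [this]
  exact Finset.measurable_sum _ fun x _ => measurable_const.indicator (hT x hS)

theorem lint_cnt (κ : Measure X) (T : Site d → X → X) (hT : ∀ a, MeasurePreserving (T a) κ κ)
    (S : Set X) (hS : MeasurableSet S) (R : ℕ) :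
    ∫⁻ p, (cnt T S R p : ℝ≥0∞) ∂κ = ((bx d R).card : ℝ≥0∞) * κ S := by
  have : (fun p => (cnt T S R p : ℝ≥0∞)) =
      fun p => ∑ x ∈ bx d R, Set.indicator (T x ⁻¹' S) (fun _ => (1 : ℝ≥0∞)) p := by
    funext p
    exact cnt_eq T S R p
  rw [this, lintegral_finsetSum _ fun x _ => measurable_const.indicator ((hT x).measurable hS)]
  have h2 : ∀ x ∈ bx d R, ∫⁻ p, Set.indicator (T x ⁻¹' S) (fun _ => (1 : ℝ≥0∞)) p ∂κ = κ S := by
    intro x _
    rw [lintegral_indicator ((hT x).measurable hS), setLIntegral_one,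
      (hT x).measure_preimage hS.nullMeasurableSet]
  rw [Finset.sum_congr rfl h2, Finset.sum_const, nsmul_eq_mul]

/-- the set where some average over a box of radius at most `L` is large -/
def ML (T : Site d → X → X) (S : Set X) (ε : ℝ) (L : ℕ) : Set X :=
  {p | ∃ R : ℕ, R ≤ L ∧ ε * (2 * (R : ℝ) + 1) ^ d ≤ (cnt T S R p : ℝ)}

theorem meas_ML (T : Site d → X → X) (hT : ∀ a, Measurable (T a)) (S : Set X)
    (hS : MeasurableSet S) (ε : ℝ) (L : ℕ) : MeasurableSet (ML T S ε L) := by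
  have h1 : ML T S ε L = ⋃ R : ℕ, ⋃ _ : R ≤ L,
      {p | ε * (2 * (R : ℝ) + 1) ^ d ≤ (cnt T S R p : ℝ)} := by
    ext p
    unfold ML
    simp only [Set.mem_ofPred_eq, Set.mem_iUnion, exists_prop]
  rw [h1]
  refine MeasurableSet.iUnion fun R => MeasurableSet.iUnion fun _ => ?_
  have h2 : {p | ε * (2 * (R : ℝ) + 1) ^ d ≤ (cnt T S R p : ℝ)} =
      {p | ε * (2 * (R : ℝ) + 1) ^ d ≤ ((cnt T S R p : ℝ≥0∞)).toReal} := by
    ext p
    simp only [Set.mem_ofPred_eq, ENNReal.toReal_natCast]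
  rw [h2]
  exact measurableSet_le measurable_const (meas_cnt T hT S hS R).ennreal_toReal

theorem cover (hvit : VitStmt) (T : Site d → X → X) (hTT : ∀ a b p, T a (T b p) = T (a + b) p)
    (S : Set X) (ε : ℝ) (hε : 0 < ε) (L : ℕ) (p : X) :
    ε * (cnt T (ML T S ε L) L p : ℝ) ≤ 5 ^ d * (cnt T S (2 * L) p : ℝ) := by
  classical
  set A : Finset (Site d) := (bx d L).filter fun x => T x p ∈ ML T S ε L with hA
  set B : Finset (Site d) := (bx d (2 * L)).filter fun x => T x p ∈ S with hB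
  have hAc : cnt T (ML T S ε L) L p = A.card := by
    unfold cnt
    rw [← Set.ncard_coe_finset]
    congr 1
    ext x
    simp only [hA, Set.mem_inter_iff, Set.mem_ofPred_eq, Finset.mem_coe, Finset.mem_filter]
    tauto
  have hBc : cnt T S (2 * L) p = B.card := by
    unfold cnt
    rw [← Set.ncard_coe_finset]
    congr 1
    ext x
    simp only [hB, Set.mem_inter_iff, Set.mem_ofPred_eq, Finset.mem_coe, Finset.mem_filter]
    tauto
  rw [hAc, hBc]
  have hex : ∀ x : Site d, ∃ R : ℕ, x ∈ A → R ≤ L ∧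
      ε * (2 * (R : ℝ) + 1) ^ d ≤ (cnt T S R (T x p) : ℝ) := by
    intro x
    by_cases hx : x ∈ A
    · rw [hA, Finset.mem_filter] at hx
      obtain ⟨-, R, h1, h2⟩ := hx
      exact ⟨R, fun _ => ⟨h1, h2⟩⟩
    · exact ⟨0, fun h => absurd h hx⟩
  choose r hr using hex
  refine hvit d A B r ε hε ?_
  intro x hx
  obtain ⟨h1, h2⟩ := hr x hx
  refine h2.trans ?_
  have hxL : x ∈ bx d L := by
    rw [hA, Finset.mem_filter] at hx
    exact hx.1
  have hfin : ((B : Set (Site d)) ∩ {y | y - x ∈ bx d (r x)}).Finite :=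
    (B.finite_toSet).subset Set.inter_subset_left
  have h3 : cnt T S (r x) (T x p) ≤
      ((B : Set (Site d)) ∩ {y | y - x ∈ bx d (r x)}).ncard := by
    unfold cnt
    refine Set.ncard_le_ncard_of_injOn (fun z => z + x) ?_ ?_ hfin
    · rintro z ⟨hz1, hz2⟩
      simp only [Set.mem_ofPred_eq] at hz1
      rw [hTT] at hz1
      rw [Finset.mem_coe] at hz2
      refine ⟨?_, ?_⟩
      · rw [Finset.mem_coe, hB, Finset.mem_filter]
        refine ⟨?_, hz1⟩
        rw [mem_bx] at hz2 hxL ⊢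
        intro i
        have a1 := hz2 i
        have a2 := hxL i
        rw [Pi.add_apply]
        push_cast
        have : ((r x : ℕ) : ℤ) ≤ L := by exact_mod_cast h1
        constructor <;> linarith [a1.1, a1.2, a2.1, a2.2]
      · simp only [Set.mem_ofPred_eq, add_sub_cancel_right]
        exact hz2
    · intro z _ z' _ h
      exact add_right_cancel h
  exact_mod_cast h3

theorem bound_ML (hvit : VitStmt) (κ : Measure X) [IsFiniteMeasure κ] (T : Site d → X → X)
    (hT : ∀ a, MeasurePreserving (T a) κ κ)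
    (hTT : ∀ a b p, T a (T b p) = T (a + b) p) (S : Set X) (hS : MeasurableSet S)
    (ε : ℝ) (hε : 0 < ε) (L : ℕ) :
    κ (ML T S ε L) ≤ ENNReal.ofReal (10 ^ d / ε) * κ S := by
  have hTm : ∀ a, Measurable (T a) := fun a => (hT a).measurable
  have hM := meas_ML T hTm S hS ε L
  have h1 : ENNReal.ofReal ε * ∫⁻ p, (cnt T (ML T S ε L) L p : ℝ≥0∞) ∂κ ≤
      ENNReal.ofReal (5 ^ d) * ∫⁻ p, (cnt T S (2 * L) p : ℝ≥0∞) ∂κ := by
    rw [← lintegral_const_mul _ (meas_cnt T hTm _ hM L),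
      ← lintegral_const_mul _ (meas_cnt T hTm _ hS (2 * L))]
    refine lintegral_mono fun p => ?_
    have h := cover hvit T hTT S ε hε L p
    have h' := ENNReal.ofReal_le_ofReal h
    rw [ENNReal.ofReal_mul hε.le, ENNReal.ofReal_mul (by positivity), ENNReal.ofReal_natCast,
      ENNReal.ofReal_natCast] at h'
    exact h'
  rw [lint_cnt κ T hT _ hM L, lint_cnt κ T hT _ hS (2 * L), card_bx, card_bx] at h1
  have ht1 : κ (ML T S ε L) ≠ ∞ := measure_ne_top _ _
  have ht2 : κ S ≠ ∞ := measure_ne_top _ _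
  have h2 : ε * ((2 * L + 1) ^ d * (κ (ML T S ε L)).toReal) ≤
      5 ^ d * ((2 * (2 * L : ℕ) + 1) ^ d * (κ S).toReal) := by
    have h := ENNReal.toReal_mono (by
      refine ENNReal.mul_ne_top ENNReal.ofReal_ne_top (ENNReal.mul_ne_top ?_ ht2)
      exact ENNReal.natCast_ne_top _) h1
    rw [ENNReal.toReal_mul, ENNReal.toReal_mul, ENNReal.toReal_mul, ENNReal.toReal_mul,
      ENNReal.toReal_ofReal hε.le, ENNReal.toReal_ofReal (by positivity),
      ENNReal.toReal_natCast, ENNReal.toReal_natCast] at h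
    push_cast at h
    push_cast
    exact h
  have h3 : (κ (ML T S ε L)).toReal ≤ 10 ^ d / ε * (κ S).toReal := by
    have hp : (0 : ℝ) < (2 * (L : ℝ) + 1) ^ d := by positivity
    have h4 : (2 * ((2 * L : ℕ) : ℝ) + 1) ^ d ≤ 2 ^ d * (2 * (L : ℝ) + 1) ^ d := by
      rw [← mul_pow]
      refine pow_le_pow_left₀ (by positivity) ?_ d
      push_cast
      linarith
    have h5 : ε * ((2 * (L : ℝ) + 1) ^ d * (κ (ML T S ε L)).toReal) ≤
        5 ^ d * ((2 ^ d * (2 * (L : ℝ) + 1) ^ d) * (κ S).toReal) := by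
      refine h2.trans ?_
      gcongr
    have h6 : (10 : ℝ) ^ d = 5 ^ d * 2 ^ d := by
      rw [← mul_pow]
      norm_num
    rw [h6]
    have h7 : (2 * (L : ℝ) + 1) ^ d * (ε * (κ (ML T S ε L)).toReal) ≤
        (2 * (L : ℝ) + 1) ^ d * (5 ^ d * 2 ^ d * (κ S).toReal) := by
      nlinarith [h5]
    have h8 := le_of_mul_le_mul_left h7 hp
    rw [div_mul_eq_mul_div, le_div_iff₀ hε]
    linarith
  rw [← ENNReal.ofReal_toReal ht1, ← ENNReal.ofReal_toReal ht2,
    ← ENNReal.ofReal_mul (by positivity)]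
  exact ENNReal.ofReal_le_ofReal h3

theorem max_stmt (hvit : VitStmt) : MaxStmt := by
  intro d X _ κ _ T hT hTT S hS ε hε
  have h1 : {p | ∃ R : ℕ, ε * (2 * (R : ℝ) + 1) ^ d ≤
      (({x | T x p ∈ S} ∩ (bx d R : Set (Site d))).ncard : ℝ)} = ⋃ L : ℕ, ML T S ε L := by
    ext p
    simp only [Set.mem_ofPred_eq, Set.mem_iUnion]
    constructor
    · rintro ⟨R, hR⟩
      exact ⟨R, R, le_rfl, hR⟩
    · rintro ⟨L, R, -, hR⟩
      exact ⟨R, hR⟩
  have hmono : Monotone fun L : ℕ => ML T S ε L := by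
    rintro L L' h p ⟨R, hR, h2⟩
    exact ⟨R, hR.trans h, h2⟩
  rw [h1, hmono.measure_iUnion]
  exact iSup_le fun L => bound_ML hvit κ T hT hTT S hS ε hε L

end Pool.Agent.Helper56.RES
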