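import Pool.Agent.Helper70_RES.Stmts
import Pool.Agent.Helper54_QE.Meas

/-!
# Module MEA: measurability
-/

set_option autoImplicit false
set_option linter.unusedSectionVars false

open scoped InnerProductSpace ComplexConjugate Topology ENNReal
open MeasureTheory Filter

noncomputable section

namespace Pool.Agent.Helper56.RES.MEA

open Pool.Agent.Anderson Pool.Agent.Helper54.Bal Pool.Agent.QE Pool.Agent.RES

variable {d : ℕ}

theorem en_ne (n : ℕ) : en n ≠ 0 := by
  unfold en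
  positivity

theorem sm_GG (n : ℕ) (x : Site d) :
    StronglyMeasurable fun p : Cfg d × ℝ => GG p.1 p.2 n x := by
  unfold GG
  exact sm_G (en_ne n) measurable_fst measurable_snd stronglyMeasurable_const

theorem m1 (n : ℕ) (x : Site d) : Measurable fun p : Cfg d × ℝ => ‖GG p.1 p.2 n x‖ :=
  (sm_GG n x).norm.measurable

theorem m2 (n : ℕ) (x y : Site d) : Measurable fun p : Cfg d × ℝ => GG p.1 p.2 n x y :=
  measurable_coord (sm_GG n x) y

theorem m3 (hatm : AtmStmt) (x : Site d) : MeasurableSet {p : Cfg d × ℝ | Atom p.1 p.2 x} := by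
  have h1 : {p : Cfg d × ℝ | Atom p.1 p.2 x} =
      {p : Cfg d × ℝ | Tendsto (fun n => en n * ‖GG p.1 p.2 n x‖) atTop (𝓝 0)}ᶜ := by
    ext p
    exact hatm d p.1 p.2 x
  rw [h1]
  refine (measurableSet_tendsto (𝓝 0) fun n => ?_).compl
  exact (m1 n x).const_mul _

theorem m4 (hatm : AtmStmt) : MeasurableSet {p : Cfg d × ℝ | NoEig p.1 p.2} := by
  have h1 : {p : Cfg d × ℝ | NoEig p.1 p.2} = ⋂ x : Site d, {p : Cfg d × ℝ | Atom p.1 p.2 x}ᶜ := by
    ext p
    simp only [Set.mem_ofPred_eq, Set.mem_iInter, Set.mem_compl_iff]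
    constructor
    · rintro h x ⟨ψ, hψ, hx⟩
      apply hx
      rw [h ψ hψ]
      rfl
    · intro h ψ hψ
      ext x
      by_contra hx
      exact h x ⟨ψ, hψ, hx⟩
  rw [h1]
  exact MeasurableSet.iInter fun x => (m3 hatm x).compl

theorem m5 (x : Site d) : MeasurableSet {p : Cfg d × ℝ | Bdd p.1 p.2 x} := by
  have h1 : {p : Cfg d × ℝ | Bdd p.1 p.2 x} =
      ⋃ C : ℕ, ⋂ n : ℕ, {p : Cfg d × ℝ | ‖GG p.1 p.2 n x‖ ≤ C} := by
    ext p
    simp only [Set.mem_ofPred_eq, Set.mem_iInter, Set.mem_iUnion]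
    constructor
    · rintro ⟨C, hC⟩
      obtain ⟨N, hN⟩ := exists_nat_ge C
      exact ⟨N, fun n => (hC n).trans hN⟩
    · rintro ⟨N, hN⟩
      exact ⟨N, hN⟩
  rw [h1]
  exact MeasurableSet.iUnion fun C => MeasurableSet.iInter fun n =>
    measurableSet_le (m1 n x) measurable_const

theorem mV (K : ℝ) (x : Site d) : MeasurableSet {p : Cfg d × ℝ | |p.1 x| ≤ K} := by
  refine measurableSet_le ?_ measurable_const
  have h : Measurable fun p : Cfg d × ℝ => p.1 x := (measurable_pi_apply x).comp measurable_fst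
  exact h.abs

theorem m6 (K : ℕ) (x : Site d) : MeasurableSet {p : Cfg d × ℝ | Good K p.1 p.2 x} := by
  have h1 : {p : Cfg d × ℝ | Good K p.1 p.2 x} =
      {p : Cfg d × ℝ | |p.1 x| ≤ K} ∩ ((⋂ n : ℕ, {p : Cfg d × ℝ | ‖GG p.1 p.2 n x‖ ≤ K}) ∩
        ⋂ n : ℕ, ⋂ _ : K ≤ n, {p : Cfg d × ℝ | 1 ≤ (K : ℝ) * ‖GG p.1 p.2 n x x‖}) := by
    ext p
    simp only [Set.mem_ofPred_eq, Set.mem_iInter, Set.mem_inter_iff]
    rfl
  rw [h1]
  refine (mV K x).inter ((MeasurableSet.iInter fun n =>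
    measurableSet_le (m1 n x) measurable_const).inter (MeasurableSet.iInter fun n =>
    MeasurableSet.iInter fun _ => ?_))
  exact measurableSet_le measurable_const ((m2 n x x).norm.const_mul _)

theorem m7 (x y : Site d) : MeasurableSet {p : Cfg d × ℝ |
    Tendsto (fun n => GG p.1 p.2 n x y) atTop (𝓝 0)} :=
  measurableSet_tendsto (𝓝 0) fun n => m2 n x y

theorem m8 (K n : ℕ) (a x : Site d) : MeasurableSet {p : Cfg d × ℝ | Cond K n a x p} := by
  have h1 : {p : Cfg d × ℝ | Cond K n a x p} =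
      {p : Cfg d × ℝ | ‖GG p.1 p.2 n a‖ ≤ K} ∩ ({p : Cfg d × ℝ | ‖GG p.1 p.2 n x‖ ≤ K} ∩
        ({p : Cfg d × ℝ | |p.1 x| ≤ K} ∩
          ({p : Cfg d × ℝ | 1 ≤ (K : ℝ) * ‖GG p.1 p.2 n x x‖} ∩
            {p : Cfg d × ℝ | 8 * (K : ℝ) ^ 4 * en n ≤ ‖GG p.1 p.2 n a x‖}))) := by
    ext p
    rfl
  rw [h1]
  exact (measurableSet_le (m1 n a) measurable_const).inter
    ((measurableSet_le (m1 n x) measurable_const).inter ((mV K x).inter
      ((measurableSet_le measurable_const ((m2 n x x).norm.const_mul _)).inter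
        (measurableSet_le measurable_const (m2 n a x).norm))))

theorem mea_stmt (hatm : AtmStmt) : MeaStmt := fun _ =>
  ⟨m1, m2, m3 hatm, m4 hatm, m5, m6, m7, m8⟩

end Pool.Agent.Helper56.RES.MEA
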